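import Pool.Agent.TH444.MF.LimitB
import Pool.Agent.TH444.MF.Smooth3
import Pool.Agent.TH444.MF.Upper
import Pool.Agent.Results.MP_afae12_nt.DeficiencyExponent

/-!
# Sets of integers with no member a multiple of `k` others: the densities

`g k n` (defined in the file `DeficiencyExponent.lean` of this problem) is the largest size of a
subset of `{1, …, n}` no member of which is a multiple of `k` distinct other members. For every
`k ≥ 1` the limit `c k` of `g k n / n` exists.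
-/

set_option autoImplicit false
set_option maxHeartbeats 400000
open Finset Real Filter Topology

namespace Pool.Agent.Results.MP_afae12_nt.AllDensities

open Pool.Agent.Results.MP_afae12_nt.DeficiencyExponent

lemma multFree_iff' (k : ℕ) (A : Finset ℕ) : MultFree k A ↔ TH444.MF.MF k A :=
  multFree_iff k A

lemma lower_free (k n : ℕ) (hk : 1 ≤ k) : MultFree k (Ioc (n / (k + 1)) n) := by
  rw [multFree_iff]
  intro a ha
  rw [mem_Ioc] at ha
  have ha0 : 0 < a := lt_of_le_of_lt (Nat.zero_le _) ha.1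
  have h1 : ((Ioc (n / (k + 1)) n).filter (fun b => b ≠ a ∧ b ∣ a)).card ≤ (Icc 2 k).card := by
    refine Finset.card_le_card_of_injOn (fun b => a / b) ?_ ?_
    · intro b hb
      simp only [coe_filter, Set.mem_ofPred_eq, mem_Ioc] at hb
      obtain ⟨⟨hb1, hb2⟩, hb3, q, hq⟩ := hb
      have hb0 : 0 < b := lt_of_le_of_lt (Nat.zero_le _) hb1
      have h2 : a / b = q := by rw [hq]; exact Nat.mul_div_cancel_left q hb0
      have h3 : n < b * (k + 1) := (Nat.div_lt_iff_lt_mul (by omega)).1 hb1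
      simp only [coe_Icc, Set.mem_Icc]
      rw [h2]
      constructor
      · by_contra hlt
        have : q = 0 ∨ q = 1 := by omega
        rcases this with h | h
        · rw [h, mul_zero] at hq; omega
        · rw [h, mul_one] at hq; exact hb3 hq.symm
      · have h4 : b * q < b * (k + 1) := by omega
        have := Nat.lt_of_mul_lt_mul_left h4
        omega
    · intro b hb b' hb' h
      simp only [coe_filter, Set.mem_ofPred_eq, mem_Ioc] at hb hb'
      have h2 : b * (a / b) = a := Nat.mul_div_cancel' hb.2.2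
      have h3 : b' * (a / b') = a := Nat.mul_div_cancel' hb'.2.2
      have h : a / b = a / b' := h
      rw [← h] at h3
      have h4 : 0 < a / b := Nat.div_pos (Nat.le_of_dvd ha0 hb.2.2)
        (lt_of_le_of_lt (Nat.zero_le _) hb.1.1)
      exact Nat.eq_of_mul_eq_mul_right h4 (h2.trans h3.symm)
  rw [Nat.card_Icc] at h1
  omega

lemma lower_bound (k n : ℕ) (hk : 1 ≤ k) : (n : ℝ) * (k / (k + 1)) ≤ g k n := by
  have h1 := le_g (k := k) (n := n) (A := Ioc (n / (k + 1)) n) (fun a ha => by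
    rw [mem_Ioc] at ha
    rw [mem_Icc]
    exact ⟨lt_of_le_of_lt (Nat.zero_le _) ha.1, ha.2⟩) (lower_free k n hk)
  rw [Nat.card_Ioc] at h1
  have h2 : n ≤ g k n + n / (k + 1) := by omega
  have h3 : (n : ℝ) ≤ g k n + ((n / (k + 1) : ℕ) : ℝ) := by exact_mod_cast h2
  have h4 : ((n / (k + 1) : ℕ) : ℝ) ≤ n / (k + 1) := by
    have := @Nat.cast_div_le ℝ _ _ _ n (k + 1)
    push_cast at this
    exact this
  have hk0 : (0 : ℝ) < (k : ℝ) + 1 := by positivity
  have h5 : (n : ℝ) * (k / (k + 1)) = n - n / (k + 1) := by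
    field_simp
    ring
  rw [h5]
  linarith

lemma upper_bound' (k D n : ℕ) (hD : 1 ≤ D) (hk : k + 1 ≤ D.divisors.card) :
    (g k n : ℝ) ≤ n - D.totient * (n / (D : ℝ) ^ 2 - 1) := by
  obtain ⟨A, hA1, hA2, hA3⟩ := exists_g k n
  have h4 := TH444.MF.upper_comb n k D hD hk A hA1 ((multFree_iff k A).1 hA2)
  have h5 := TH444.MF.count_coprime' n D hD
  have h6 : (A.card : ℝ) + ((n / (D * D) : ℕ) : ℝ) * D.totient ≤ n := by
    have : A.card + (n / (D * D)) * D.totient ≤ n := by omega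
    exact_mod_cast this
  have hD0 : (0 : ℝ) < D := by exact_mod_cast hD
  have h7 : (n : ℝ) / (D : ℝ) ^ 2 - 1 ≤ ((n / (D * D) : ℕ) : ℝ) := by
    have h8 : n < (n / (D * D) + 1) * (D * D) := by
      have := Nat.lt_div_mul_add (a := n) (b := D * D) (Nat.mul_pos hD hD)
      linarith
    have h9 : (n : ℝ) < (((n / (D * D) : ℕ) : ℝ) + 1) * (D * D) := by exact_mod_cast h8
    rw [sub_le_iff_le_add, div_le_iff₀ (by positivity)]
    nlinarith
  have h8 : ((n : ℝ) / (D : ℝ) ^ 2 - 1) * D.totient ≤ ((n / (D * D) : ℕ) : ℝ) * D.totient :=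
    mul_le_mul_of_nonneg_right h7 (Nat.cast_nonneg _)
  rw [hA3] at h6
  linarith

/-- For every `k ≥ 1` the density `c k = lim g k n / n` exists; `k / (k + 1) ≤ c k`, and
`c k ≤ 1 - φ(D) / D ^ 2` for every `D` with more than `k` divisors; `43/60 ≤ c 2 ≤ 13/18`; and
`1 - c k = k ^ (-(1 + o(1)) log log k / log 2)` as `k → ∞`. -/
theorem result : ∃ c : ℕ → ℝ,
    (∀ k, 1 ≤ k → Tendsto (fun n : ℕ => (g k n : ℝ) / n) atTop (𝓝 (c k)) ∧
      (k : ℝ) / (k + 1) ≤ c k ∧
      ∀ D : ℕ, 1 ≤ D → k + 1 ≤ D.divisors.card → c k ≤ 1 - (D.totient : ℝ) / D ^ 2) ∧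
    43 / 60 ≤ c 2 ∧ c 2 ≤ 13 / 18 ∧
    ∀ ε : ℝ, 0 < ε → ∃ K : ℕ, ∀ k ≥ K,
      (k : ℝ) ^ (-((1 + ε) * log (log k) / log 2)) ≤ 1 - c k ∧
        1 - c k ≤ (k : ℝ) ^ (-((1 - ε) * log (log k) / log 2)) := by
  have hlim : ∀ k : ℕ, ∃ c : ℝ, Tendsto (fun n : ℕ => (g k n : ℝ) / n) atTop (𝓝 c) := by
    intro k
    apply TH444.MF.limit_exists k (g k)
    · intro n A hA h
      exact le_g hA ((multFree_iff' k A).2 h)
    · intro n
      obtain ⟨A, h1, h2, h3⟩ := exists_g k n
      exact ⟨A, h1, (multFree_iff' k A).1 h2, h3⟩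
  choose c hc using hlim
  obtain ⟨c2, hc2, h2a, h2b⟩ : ∃ c : ℝ, Tendsto (fun n : ℕ => (g 2 n : ℝ) / n) atTop (𝓝 c) ∧
      43 / 60 ≤ c ∧ c ≤ 13 / 18 := by
    apply TH444.MF.bounds_final (g 2)
    · intro n A hA h
      exact le_g hA ((multFree_iff' 2 A).2 h)
    · intro n
      obtain ⟨A, h1, h2, h3⟩ := exists_g 2 n
      exact ⟨A, h1, (multFree_iff' 2 A).1 h2, h3⟩
  have hcc : c 2 = c2 := tendsto_nhds_unique (hc 2) hc2
  refine ⟨c, fun k hk => ⟨hc k, ?_, fun D hD hkD => ?_⟩, hcc ▸ h2a, hcc ▸ h2b, fun ε hε => ?_⟩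
  · refine ge_of_tendsto (hc k) ?_
    filter_upwards [eventually_ge_atTop 1] with n hn
    have hn0 : (0 : ℝ) < n := by exact_mod_cast hn
    rw [le_div_iff₀ hn0, mul_comm]
    exact lower_bound k n hk
  · have h1 : Tendsto (fun n : ℕ => 1 - (D.totient : ℝ) * (1 / (D : ℝ) ^ 2 - 1 / (n : ℝ))) atTop
        (𝓝 (1 - (D.totient : ℝ) * (1 / (D : ℝ) ^ 2 - 0))) := by
      refine tendsto_const_nhds.sub (tendsto_const_nhds.mul (tendsto_const_nhds.sub ?_))
      exact tendsto_const_div_atTop_nhds_zero_nat 1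
    have h2 : 1 - (D.totient : ℝ) * (1 / (D : ℝ) ^ 2 - 0) = 1 - (D.totient : ℝ) / D ^ 2 := by
      ring
    rw [h2] at h1
    refine le_of_tendsto_of_tendsto (hc k) h1 ?_
    filter_upwards [eventually_ge_atTop 1] with n hn
    have hn0 : (0 : ℝ) < n := by exact_mod_cast hn
    rw [div_le_iff₀ hn0]
    have h3 := upper_bound' k D n hD hkD
    have h4 : (1 - (D.totient : ℝ) * (1 / (D : ℝ) ^ 2 - 1 / (n : ℝ))) * n
        = n - D.totient * (n / (D : ℝ) ^ 2 - 1) := by
      field_simp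
    rw [h4]
    exact h3
  · obtain ⟨K, hK⟩ := DeficiencyExponent.result ε hε
    refine ⟨K, fun k hk => ?_⟩
    obtain ⟨n₀, hn₀⟩ := hK k hk
    have h1 : Tendsto (fun n : ℕ => 1 - (g k n : ℝ) / n) atTop (𝓝 (1 - c k)) :=
      tendsto_const_nhds.sub (hc k)
    constructor
    · refine ge_of_tendsto h1 ?_
      filter_upwards [eventually_ge_atTop n₀] with n hn
      exact (hn₀ n hn).1
    · refine le_of_tendsto h1 ?_
      filter_upwards [eventually_ge_atTop n₀] with n hn
      exact (hn₀ n hn).2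

end Pool.Agent.Results.MP_afae12_nt.AllDensities
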